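import Pool.Agent.H44.DG.Targets
import Pool.Agent.H33.DG.INV
import Pool.Agent.H33.DG.DEC
import Pool.Agent.H3.DG.ADJ

/-! CAS: the four kinds of steps in a realised picture. -/

namespace Pool.Agent.H65.DG.CAS

open Pool.Agent.H44.DG

lemma real_cons {V : Type} (c : Ctx V) (x : Tag × Cycle ℕ) (G : LF) :
    real c (x ::ₘ G) = real1 c x + real c G := by
  unfold real
  rw [Multiset.cons_bind]

lemma adj_of_le {V : Type} {F G : Multiset (Region V)} {u v : V} (h : F ≤ G) (ha : Adj F u v) : Adj G u v := by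
  obtain ⟨Φ, hΦ, w, hw, hd⟩ := ha
  exact ⟨Φ, Multiset.mem_of_le h hΦ, w, hw, hd⟩

theorem cas (hINV : T_INV) (hDEC : T_DEC) (hADJ : T_ADJ) : T_CAS := by
  intro V c N L F' hC hS
  obtain ⟨u, v, huv, hadj, Φ, Ψ, G', hF, rfl, hm⟩ := hS
  have hΦ : Φ ∈ real c L := by rw [hF]; exact Multiset.mem_cons_self _ _
  obtain ⟨x, hx, hΦx⟩ := Multiset.mem_bind.1 hΦ
  obtain ⟨G, rfl⟩ := Multiset.exists_cons_of_mem hx
  obtain ⟨H, hH⟩ := Multiset.exists_cons_of_mem hΦx
  have hG' : G' = H + real c G := by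
    rw [real_cons, hH, Multiset.cons_add, Multiset.cons_inj_right] at hF
    exact hF.symm
  subst hG'
  obtain ⟨t, w⟩ := x
  cases t with
  | E =>
    have h1 : Φ = {w.map c.f} ∧ H = 0 := by
      have h2 : ({({w.map c.f} : Region V)} : Multiset (Region V)) = Φ ::ₘ H := hH
      rw [← Multiset.cons_zero] at h2
      rcases Multiset.cons_eq_cons.1 h2 with ⟨h3, h4⟩ | ⟨_, cs, h3, _⟩
      · exact ⟨h3.symm, h4.symm⟩
      · exact absurd h3.symm (Multiset.cons_ne_zero)
    obtain ⟨rfl, rfl⟩ := h1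
    have hm' : RegionMove u v ((w.map c.f) ::ₘ (0 : Region V)) Ψ := hm
    rcases hINV V (w.map c.f) 0 u v Ψ hm' with ⟨l, m, fl₁, fl₂, hX, h0, rfl⟩ | ⟨u', v', l, m, fl', _, _, h0, _⟩ |
      ⟨l, m, fl', h0, _⟩ | ⟨l, m, h0⟩
    · obtain ⟨rfl, rfl⟩ := (add_eq_zero (a := fl₁) (b := fl₂)).1 h0.symm
      left
      obtain ⟨r, rfl⟩ : ∃ r : List ℕ, (↑r : Cycle ℕ) = w := Quotient.exists_rep w
      have hX' : (↑(u :: (l ++ v :: m)) : Cycle V) = ↑(r.map c.f) := hX.symm
      obtain ⟨p, l', q, u', v', rfl, hcase⟩ := (hDEC V c.f r).1 u v l m hX'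
      have hw : (↑(p ++ u' :: (l' ++ v' :: q)) : Cycle ℕ) = ↑(u' :: (l' ++ v' :: (q ++ p))) := by
        have := coe_rot p (u' :: (l' ++ v' :: q))
        have h3 : u' :: (l' ++ v' :: q) ++ p = u' :: (l' ++ v' :: (q ++ p)) := by simp
        rw [h3] at this
        exact this
      have hu' : u' < N := hC.lab _ (Multiset.mem_cons_self _ _) u' (by
        show u' ∈ (↑(p ++ u' :: (l' ++ v' :: q)) : Cycle ℕ)
        rw [hw]; simp)
      have hv' : v' < N := hC.lab _ (Multiset.mem_cons_self _ _) v' (by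
        show v' ∈ (↑(p ++ u' :: (l' ++ v' :: q)) : Cycle ℕ)
        rw [hw]; simp)
      have hne : u' ≠ v' := by
        rintro rfl
        rcases hcase with ⟨h1, h2, _⟩ | ⟨h1, h2, _⟩
        · exact huv (h1.trans h2.symm)
        · exact huv (h2.trans h1.symm)
      have hA := (hADJ V c N _ hC).1 u' v' hu' hv' hne
      have hnl : ¬ LAdj ((Tag.E, (↑(p ++ u' :: (l' ++ v' :: q)) : Cycle ℕ)) ::ₘ G) u' v' := by
        intro hl
        have h4 := hA.2 hl
        rcases hcase with ⟨h1, h2, _⟩ | ⟨h1, h2, _⟩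
        · rw [h1, h2] at hadj; exact hadj h4
        · rw [h1, h2] at hadj; exact hadj h4.symm
      rw [hw] at hnl ⊢
      refine ⟨_, LMove.E u' v' l' (q ++ p) G hne hnl, ?_⟩
      rw [real_cons, real_cons]
      rcases hcase with ⟨rfl, rfl, rfl, rfl⟩ | ⟨rfl, rfl, rfl, rfl⟩
      · simp only [real1, Cycle.map_coe, List.map_cons, List.map_append, List.map_nil]
        simp only [Multiset.insert_eq_cons, Multiset.singleton_add, Multiset.cons_zero, zero_add,
          Multiset.cons_add]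
      · simp only [real1, Cycle.map_coe, List.map_cons, List.map_append, List.map_nil]
        simp only [Multiset.insert_eq_cons, Multiset.singleton_add, Multiset.cons_zero, zero_add,
          Multiset.cons_add]
        rw [Multiset.cons_swap]
    · exact absurd h0.symm (Multiset.cons_ne_zero)
    · exact absurd h0.symm (Multiset.cons_ne_zero)
    · simp at h0
  | R k =>
    have h2 : (w.map c.f ::ₘ c.FL k) ::ₘ c.FI k = Φ ::ₘ H := hH
    have hmem : Φ ∈ (w.map c.f ::ₘ c.FL k) ::ₘ c.FI k := by rw [h2]; exact Multiset.mem_cons_self _ _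
    rcases Multiset.mem_cons.1 hmem with rfl | hmem
    · right; left
      rw [Multiset.cons_inj_right] at h2
      subst h2
      exact ⟨k, w, G, u, v, Ψ, rfl, huv, hadj, hm, by rw [add_assoc]⟩
    · right; right; left
      obtain ⟨cs, hcs⟩ := Multiset.exists_cons_of_mem hmem
      rw [hcs, Multiset.cons_swap, Multiset.cons_inj_right] at h2
      subst h2
      refine ⟨k, w, G, Ψ + cs, rfl, ⟨u, v, huv, ?_, Φ, Ψ, cs, hcs, rfl, hm⟩, ?_⟩
      · intro ha
        apply hadj
        rw [real_cons]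
        refine adj_of_le ?_ ha
        refine le_trans ?_ (Multiset.le_add_right _ _)
        exact Multiset.le_cons_self _ _
      · rw [← Multiset.singleton_add]
        abel
  | T i =>
    right; right; right
    have h2 : c.FS i = Φ ::ₘ H := hH
    refine ⟨i, w, G, Ψ + H, rfl, ⟨u, v, huv, ?_, Φ, Ψ, H, h2, rfl, hm⟩, by rw [add_assoc]⟩
    intro ha
    apply hadj
    rw [real_cons]
    exact adj_of_le (Multiset.le_add_right _ _) ha

theorem pf_CAS : T_CAS := cas Pool.Agent.H33.DG.INV.pf_INV Pool.Agent.H33.DG.DEC.pf_DEC Pool.Agent.H3.DG.ADJ.pf_ADJ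

end Pool.Agent.H65.DG.CAS
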