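import Pool.Agent.H44.DG.Targets

/-! FLO: floating points and edges. -/

namespace Pool.Agent.H65.DG.FLO

open Pool.Agent.H44.DG

variable {V : Type}

lemma cyc1 {a b : V} (h : (↑[a] : Cycle V) = ↑[b]) : a = b := by
  have h' := Cycle.coe_eq_coe.1 h
  simpa using h'

lemma cyc12 {a b c : V} (h : (↑[a, b] : Cycle V) = ↑[c]) : False := by
  have h' := Cycle.coe_eq_coe.1 h
  simpa using h'.perm.length_eq

lemma cyc2 {a b c d : V} (h : (↑[a, b] : Cycle V) = ↑[c, d]) : (a = c ∧ b = d) ∨ (a = d ∧ b = c) := by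
  obtain ⟨n, hn, h'⟩ := (List.isRotated_iff_mod).1 (Cycle.coe_eq_coe.1 h)
  simp only [List.length_cons, List.length_nil] at hn
  interval_cases n
  · simp at h'
    exact Or.inl h'
  · simp at h'
    exact Or.inr ⟨h'.2, h'.1⟩
  · simp [List.rotate_cons_succ] at h'
    exact Or.inl h'

lemma flo_split {fl : Region V} {W : Multiset V} (h : Floats fl W) :
    ∀ fl₁ fl₂, fl = fl₁ + fl₂ → ∃ W₁ W₂, W = W₁ + W₂ ∧ Floats fl₁ W₁ ∧ Floats fl₂ W₂ := by
  induction h with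
  | nil =>
    intro fl₁ fl₂ h
    obtain ⟨rfl, rfl⟩ := (add_eq_zero (a := fl₁) (b := fl₂)).1 h.symm
    exact ⟨0, 0, by simp, Floats.nil, Floats.nil⟩
  | k1 v fl W h ih =>
    intro fl₁ fl₂ he
    have hm : (↑[v] : Cycle V) ∈ fl₁ + fl₂ := by rw [← he]; simp
    rcases Multiset.mem_add.1 hm with hm | hm
    · obtain ⟨t, rfl⟩ := Multiset.exists_cons_of_mem hm
      rw [Multiset.cons_add, Multiset.cons_inj_right] at he
      obtain ⟨W₁, W₂, rfl, h1, h2⟩ := ih t fl₂ he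
      exact ⟨v ::ₘ W₁, W₂, by simp, Floats.k1 v t W₁ h1, h2⟩
    · obtain ⟨t, rfl⟩ := Multiset.exists_cons_of_mem hm
      rw [Multiset.add_cons, Multiset.cons_inj_right] at he
      obtain ⟨W₁, W₂, rfl, h1, h2⟩ := ih fl₁ t he
      exact ⟨W₁, v ::ₘ W₂, by simp, h1, Floats.k1 v t W₂ h2⟩
  | k2 v w fl W h ih =>
    intro fl₁ fl₂ he
    have hm : (↑[v, w] : Cycle V) ∈ fl₁ + fl₂ := by rw [← he]; simp
    rcases Multiset.mem_add.1 hm with hm | hm
    · obtain ⟨t, rfl⟩ := Multiset.exists_cons_of_mem hm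
      rw [Multiset.cons_add, Multiset.cons_inj_right] at he
      obtain ⟨W₁, W₂, rfl, h1, h2⟩ := ih t fl₂ he
      exact ⟨v ::ₘ w ::ₘ W₁, W₂, by simp, Floats.k2 v w t W₁ h1, h2⟩
    · obtain ⟨t, rfl⟩ := Multiset.exists_cons_of_mem hm
      rw [Multiset.add_cons, Multiset.cons_inj_right] at he
      obtain ⟨W₁, W₂, rfl, h1, h2⟩ := ih fl₁ t he
      exact ⟨W₁, v ::ₘ w ::ₘ W₂, by simp, h1, Floats.k2 v w t W₂ h2⟩

lemma flo_mem {fl : Region V} {W : Multiset V} (h : Floats fl W) :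
    ∀ X ∈ fl, (∃ v : V, X = (↑[v] : Cycle V)) ∨ ∃ v w : V, X = (↑[v, w] : Cycle V) := by
  induction h with
  | nil => intro X hX; simp at hX
  | k1 v fl W h ih =>
    intro X hX
    rcases Multiset.mem_cons.1 hX with rfl | hX
    · exact Or.inl ⟨v, rfl⟩
    · exact ih X hX
  | k2 v w fl W h ih =>
    intro X hX
    rcases Multiset.mem_cons.1 hX with rfl | hX
    · exact Or.inr ⟨v, w, rfl⟩
    · exact ih X hX

lemma flo_one {fl : Region V} {W : Multiset V} (h : Floats fl W) :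
    ∀ v fl', fl = (↑[v] : Cycle V) ::ₘ fl' → ∃ W', W = v ::ₘ W' ∧ Floats fl' W' := by
  induction h with
  | nil => intro v fl' h; exact absurd h.symm (Multiset.cons_ne_zero)
  | k1 v₀ fl W h ih =>
    intro v fl' he
    rcases Multiset.cons_eq_cons.1 he with ⟨h1, h2⟩ | ⟨_, cs, h1, h2⟩
    · have := cyc1 h1
      subst this; subst h2
      exact ⟨W, rfl, h⟩
    · obtain ⟨W', rfl, hW'⟩ := ih v cs h1
      subst h2
      exact ⟨v₀ ::ₘ W', Multiset.cons_swap _ _ _, Floats.k1 v₀ cs W' hW'⟩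
  | k2 v₀ w₀ fl W h ih =>
    intro v fl' he
    rcases Multiset.cons_eq_cons.1 he with ⟨h1, h2⟩ | ⟨_, cs, h1, h2⟩
    · exact (cyc12 h1).elim
    · obtain ⟨W', rfl, hW'⟩ := ih v cs h1
      subst h2
      refine ⟨v₀ ::ₘ w₀ ::ₘ W', ?_, Floats.k2 v₀ w₀ cs W' hW'⟩
      rw [Multiset.cons_swap w₀ v W', Multiset.cons_swap v₀ v]

lemma flo_two {fl : Region V} {W : Multiset V} (h : Floats fl W) :
    ∀ v w fl', fl = (↑[v, w] : Cycle V) ::ₘ fl' → ∃ W', W = v ::ₘ w ::ₘ W' ∧ Floats fl' W' := by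
  induction h with
  | nil => intro v w fl' h; exact absurd h.symm (Multiset.cons_ne_zero)
  | k1 v₀ fl W h ih =>
    intro v w fl' he
    rcases Multiset.cons_eq_cons.1 he with ⟨h1, h2⟩ | ⟨_, cs, h1, h2⟩
    · exact (cyc12 h1.symm).elim
    · obtain ⟨W', rfl, hW'⟩ := ih v w cs h1
      subst h2
      refine ⟨v₀ ::ₘ W', ?_, Floats.k1 v₀ cs W' hW'⟩
      rw [Multiset.cons_swap v₀ v, Multiset.cons_swap v₀ w]
  | k2 v₀ w₀ fl W h ih =>
    intro v w fl' he
    rcases Multiset.cons_eq_cons.1 he with ⟨h1, h2⟩ | ⟨_, cs, h1, h2⟩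
    · subst h2
      rcases cyc2 h1 with ⟨rfl, rfl⟩ | ⟨rfl, rfl⟩
      · exact ⟨W, rfl, h⟩
      · exact ⟨W, Multiset.cons_swap _ _ _, h⟩
    · obtain ⟨W', rfl, hW'⟩ := ih v w cs h1
      subst h2
      refine ⟨v₀ ::ₘ w₀ ::ₘ W', ?_, Floats.k2 v₀ w₀ cs W' hW'⟩
      rw [Multiset.cons_swap w₀ v, Multiset.cons_swap w₀ w, Multiset.cons_swap v₀ v, Multiset.cons_swap v₀ w]

lemma flo_corner {fl : Region V} {W : Multiset V} (h : Floats fl W) : ∀ u ∈ fl, ∀ v ∈ u, v ∈ W := by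
  induction h with
  | nil => intro u hu; simp at hu
  | k1 v₀ fl W h ih =>
    intro u hu v hv
    rcases Multiset.mem_cons.1 hu with rfl | hu
    · have : v = v₀ := by simpa using hv
      subst this; simp
    · exact Multiset.mem_cons_of_mem (ih u hu v hv)
  | k2 v₀ w₀ fl W h ih =>
    intro u hu v hv
    rcases Multiset.mem_cons.1 hu with rfl | hu
    · have : v = v₀ ∨ v = w₀ := by simpa using hv
      rcases this with rfl | rfl <;> simp
    · exact Multiset.mem_cons_of_mem (Multiset.mem_cons_of_mem (ih u hu v hv))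

theorem pf_FLO : T_FLO := by
  intro V fl W h
  refine ⟨flo_split h, flo_mem h, flo_one h, flo_two h, flo_corner h, ?_⟩
  intro h0
  cases h with
  | nil => rfl
  | k1 => exact absurd h0 (Multiset.cons_ne_zero)
  | k2 => exact absurd h0 (Multiset.cons_ne_zero)

end Pool.Agent.H65.DG.FLO
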