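import Pool.Agent.H44.DG.Targets3
import Pool.Agent.H33.DG.INV

/-! OPC: the first moves of the `1 : 1` drawing game. -/

set_option autoImplicit false

namespace Pool.Agent.H65.DG.OPC

open Pool.Agent.H44.DG

/-- the singleton walk -/
def sg {V : Type} (v : V) : Cycle V := (↑[v] : Cycle V)

lemma einv_draw {V : Type} {D D' : Drawing V} (hE : EInv D) (h : Draw D D') : EInv D' := by
  obtain ⟨u, v, huv, hn, he, Φ, Ψ, F, hD, hD', hm⟩ := h
  intro x y hxy
  rw [he, hD', Set.mem_insert_iff, hE x y hxy, hD, adj_cons, adj_add, hm.adj, Sym2.eq_iff]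
  tauto

lemma sing_eq_cons {α : Type} {a b : α} {s : Multiset α} (h : ({a} : Multiset α) = b ::ₘ s) :
    b = a ∧ s = 0 := by
  have h1 : s.card = 0 := by
    have := congrArg Multiset.card h
    simpa using this.symm
  have h2 := Multiset.card_eq_zero.1 h1
  subst h2
  exact ⟨(Multiset.singleton_inj.1 (by simpa using h)).symm, rfl⟩

/-- Inversion of a move in a drawing with one region. -/
lemma draw_one {V : Type} {D D' : Drawing V} {Φ : Region V} (hD : D.regions = {Φ}) (h : Draw D D') :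
    ∃ u v : V, u ≠ v ∧ s(u, v) ∉ D.edges ∧ RegionMove u v Φ D'.regions := by
  obtain ⟨u, v, huv, hn, he, Φ', Ψ, F, hD1, hD', hm⟩ := h
  rw [hD] at hD1
  obtain ⟨rfl, rfl⟩ := sing_eq_cons hD1
  refine ⟨u, v, huv, hn, ?_⟩
  rw [hD', add_zero]
  exact hm

lemma mk_draw {V : Type} {D : Drawing V} {Φ : Region V} (hD : D.regions = {Φ}) {u v : V} (huv : u ≠ v)
    (hn : s(u, v) ∉ D.edges) {Ψ : Multiset (Region V)} (hm : RegionMove u v Φ Ψ) :
    Draw D ⟨insert s(u, v) D.edges, Ψ⟩ :=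
  ⟨u, v, huv, hn, rfl, Φ, Ψ, 0, by rw [hD]; rfl, by simp, hm⟩

lemma len_eq {V : Type} {a b : List V} (h : (↑a : Cycle V) = ↑b) : a.length = b.length := by
  have := congrArg Cycle.length h
  simpa using this

lemma sg_cons {V : Type} {w u : V} {l : List V} (h : sg w = (↑(u :: l) : Cycle V)) : w = u ∧ l = [] := by
  have h1 := len_eq h
  simp at h1
  subst h1
  have h2 := Cycle.coe_eq_coe.1 h
  have h3 : u ∈ [w] := h2.mem_iff.2 (by simp)
  simp at h3
  exact ⟨h3.symm, rfl⟩

lemma map_sg_cons {V : Type} {S : Multiset V} {u : V} {l : List V} {R : Region V}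
    (h : S.map sg = (↑(u :: l) : Cycle V) ::ₘ R) : l = [] ∧ ∃ S', S = u ::ₘ S' ∧ R = S'.map sg := by
  classical
  obtain ⟨a, ha, h1, h2⟩ := (Multiset.map_eq_cons sg S R _).2 h
  obtain ⟨rfl, rfl⟩ := sg_cons h1
  exact ⟨rfl, S.erase a, (Multiset.cons_erase ha).symm, h2.symm⟩

lemma pair_cons {V : Type} {x y u : V} {l : List V} (h : (↑[x, y] : Cycle V) = ↑(u :: l)) :
    (u = x ∧ l = [y]) ∨ (u = y ∧ l = [x]) := by
  have h1 := len_eq h
  simp only [List.length_cons, List.length_nil, zero_add, Nat.add_right_cancel_iff] at h1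
  obtain ⟨z, rfl⟩ := List.length_eq_one_iff.1 h1.symm
  have h2 := (Cycle.coe_eq_coe.1 h).symm
  obtain ⟨n, hn⟩ := h2
  have : ([u, z].rotate n = [u, z]) ∨ ([u, z].rotate n = [z, u]) := by
    rw [← List.rotate_mod]
    have h4 : n % 2 = 0 ∨ n % 2 = 1 := by omega
    show ([u, z].rotate (n % 2) = [u, z]) ∨ ([u, z].rotate (n % 2) = [z, u])
    rcases h4 with h4 | h4 <;> rw [h4]
    · left; rfl
    · right; rfl
  rcases this with h3 | h3 <;> rw [h3] at hn
  · simp only [List.cons.injEq, and_true] at hn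
    left; exact ⟨hn.1, by rw [hn.2]⟩
  · simp only [List.cons.injEq, and_true] at hn
    right; exact ⟨hn.2, by rw [hn.1]⟩

lemma not_dart_sg {V : Type} {w x y : V} : ¬ IsDart (sg w) x y := by
  unfold sg
  rw [isDart_coe]
  simp

lemma dart_pair {V : Type} {a b x y : V} (h : IsDart (↑[a, b] : Cycle V) x y) :
    (x = a ∧ y = b) ∨ (x = b ∧ y = a) := by
  rw [isDart_coe] at h
  simpa [cprs_cons_cons] using h

/-- the position after one edge -/
structure A2 {V : Type} [Fintype V] (x y : V) (S : Multiset V) (D : Drawing V) : Prop where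
  reg : D.regions = {(↑[x, y] : Cycle V) ::ₘ S.map sg}
  all : x ::ₘ y ::ₘ S = (Finset.univ : Finset V).val
  einv : EInv D

/-- the hypothesis on the answers -/
def HA : Prop := ∀ (n : ℕ) (D : Drawing (Fin n)), EInv D →
    (OneW 3 [0, 1, 2, 1] D.regions ∨ OneW 4 [0, 1, 2, 3, 2, 1] D.regions) → Answered D

section

variable {n : ℕ} (hG : T_GAM) (hA : HA) (hn : 3 ≤ n)

include hG hn in
lemma wins_sp {D : Drawing (Fin n)} (h : Answered D) :
    Wins 1 1 .builder (fun D : Drawing (Fin n) => D.graph.IsHamiltonian) (.spoiler, 1) D := by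
  obtain ⟨D', hD', -, -⟩ := h.1
  refine Wins.opp .spoiler (by decide) 0 D ⟨D', hD'⟩ fun D₁ hD₁ => ?_
  obtain ⟨he, ht | ⟨D₂, hD₂, he₂, ht₂⟩⟩ := h.2 D₁ hD₁
  · exact hG n D₁ hn he ht .builder
  · exact Wins.own 0 D₁ D₂ hD₂ (hG n D₂ hn he₂ ht₂ .spoiler)

include hG hn in
lemma wins_bu {D : Drawing (Fin n)} (h : Answered D) :
    Wins 1 1 .builder (fun D : Drawing (Fin n) => D.graph.IsHamiltonian) (.builder, 1) D := by
  obtain ⟨D', hD', he, ht⟩ := h.1
  exact Wins.own 0 D D' hD' (hG n D' hn he ht .spoiler)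

lemma nodup_of_all {V : Type} [Fintype V] {s : Multiset V} (h : s = (Finset.univ : Finset V).val) :
    s.Nodup := by
  rw [h]; exact Finset.univ.nodup

/-- the position `P3` -/
lemma toP3 {V : Type} [Fintype V] {x y w : V} {S : Multiset V} {D : Drawing V}
    (h : A2 x y (w ::ₘ S) D) : ∃ D', Draw D D' ∧ EInv D' ∧ OneW 3 [0, 1, 2, 1] D'.regions := by
  have hnd := nodup_of_all h.all
  simp only [Multiset.nodup_cons, Multiset.mem_cons, not_or] at hnd
  obtain ⟨⟨hxy, hxw, -⟩, ⟨hyw, -⟩, -⟩ := hnd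
  have hne : s(y, w) ∉ D.edges := by
    rw [h.einv y w hyw, h.reg, adj_sing]
    rintro ⟨c, hc, hd⟩
    rw [Multiset.mem_cons] at hc
    rcases hc with rfl | hc
    · rcases hd with hd | hd <;> rcases dart_pair hd with ⟨h1, h2⟩ | ⟨h1, h2⟩ <;> simp_all
    · obtain ⟨v, -, rfl⟩ := Multiset.mem_map.1 hc
      rcases hd with hd | hd <;> exact not_dart_sg hd
  have hreg : D.regions = {(↑(y :: [x]) : Cycle V) ::ₘ (↑(w :: []) : Cycle V) ::ₘ S.map sg} := by
    rw [h.reg, Multiset.map_cons, show (↑[x, y] : Cycle V) = ↑[y, x] from coe_rot [x] [y]]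
    rfl
  have hd := mk_draw hreg hyw hne (RegionMove.join (u := y) (v := w) [x] [] (S.map sg))
  refine ⟨_, hd, einv_draw h.einv hd, ?_⟩
  refine ⟨fun i => if i = 0 then x else if i = 1 then y else w, S, ?_, ?_⟩
  · show ({(↑(joinWalk y [x] w []) : Cycle V) ::ₘ S.map sg} : Multiset (Region V)) = _
    congr 2
    exact coe_rot [y, w, y] [x]
  · rw [← h.all]
    simp [List.range_succ, ← Multiset.cons_coe]

/-- every move from the start leads to `A2` -/
lemma from_start {D : Drawing (Fin n)} (h : Draw (start n) D) (he : EInv D) :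
    ∃ x y S, A2 x y S D := by
  obtain ⟨u, v, huv, -, hm⟩ := draw_one (Φ := (Finset.univ : Finset (Fin n)).val.map sg) rfl h
  generalize hΦ : (Finset.univ : Finset (Fin n)).val.map sg = Φ at hm
  generalize hΨ : D.regions = Ψ at hm
  cases hm with
  | join l m R =>
    obtain ⟨rfl, S₁, h1, h2⟩ := map_sg_cons hΦ
    obtain ⟨rfl, S₂, rfl, rfl⟩ := map_sg_cons h2.symm
    exact ⟨u, v, S₂, hΨ, h1.symm, he⟩
  | split l m R₁ R₂ =>
    obtain ⟨h1, -⟩ := map_sg_cons hΦ
    simp at h1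

lemma start_einv : EInv (start n) := by
  intro u v huv
  have h1 : s(u, v) ∉ (start n).edges := by simp [start]
  have h2 : ¬ Adj (start n).regions u v := by
    show ¬ Adj {(Finset.univ : Finset (Fin n)).val.map sg} u v
    rw [adj_sing]
    rintro ⟨c, hc, hd⟩
    obtain ⟨v, -, rfl⟩ := Multiset.mem_map.1 hc
    rcases hd with hd | hd <;> exact not_dart_sg hd
  tauto

include hn in
lemma start_move : ∃ D, Draw (start n) D := by
  have h0 : (⟨0, by omega⟩ : Fin n) ≠ ⟨1, by omega⟩ := by simp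
  obtain ⟨S₁, hS₁⟩ := Multiset.exists_cons_of_mem (Finset.mem_univ_val (⟨0, by omega⟩ : Fin n))
  have h1 : (⟨1, by omega⟩ : Fin n) ∈ S₁ := by
    have := Finset.mem_univ_val (⟨1, by omega⟩ : Fin n)
    rw [hS₁, Multiset.mem_cons] at this
    exact this.resolve_left (Ne.symm h0)
  obtain ⟨S₂, rfl⟩ := Multiset.exists_cons_of_mem h1
  refine ⟨_, mk_draw (D := start n) (Φ := (↑((⟨0, by omega⟩ : Fin n) :: []) : Cycle (Fin n)) ::ₘ
    (↑((⟨1, by omega⟩ : Fin n) :: []) : Cycle (Fin n)) ::ₘ S₂.map sg) ?_ h0 (by simp [start])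
    (RegionMove.join [] [] (S₂.map sg))⟩
  show ({(Finset.univ : Finset (Fin n)).val.map sg} : Multiset (Region (Fin n))) = _
  rw [hS₁]
  simp [sg]

include hn in
lemma A2.exists_w {x y : Fin n} {S : Multiset (Fin n)} {D : Drawing (Fin n)} (h : A2 x y S D) :
    ∃ w S', S = w ::ₘ S' := by
  have hc := congrArg Multiset.card h.all
  simp only [Multiset.card_cons, Finset.card_val, Finset.card_univ, Fintype.card_fin] at hc
  have : S ≠ 0 := by
    rintro rfl
    simp at hc
    omega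
  obtain ⟨w, hw⟩ := Multiset.exists_mem_of_ne_zero this
  exact ⟨w, Multiset.exists_cons_of_mem hw⟩

include hG hA hn in
/-- Builder to move after one edge -/
lemma a2_builder {x y : Fin n} {S : Multiset (Fin n)} {D : Drawing (Fin n)} (h : A2 x y S D) :
    Wins 1 1 .builder (fun D : Drawing (Fin n) => D.graph.IsHamiltonian) (.builder, 1) D := by
  obtain ⟨w, S', rfl⟩ := h.exists_w hn
  obtain ⟨D', hd, he, ho⟩ := toP3 h
  exact Wins.own 0 D D' hd (wins_sp hG hn (hA n D' he (Or.inl ho)))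

include hG hA hn in
/-- Spoiler to move after one edge -/
lemma a2_spoiler {x y : Fin n} {S : Multiset (Fin n)} {D : Drawing (Fin n)} (h : A2 x y S D) :
    Wins 1 1 .builder (fun D : Drawing (Fin n) => D.graph.IsHamiltonian) (.spoiler, 1) D := by
  obtain ⟨D₀, hD₀⟩ : ∃ D₀, Draw D D₀ := by
    obtain ⟨w, S', rfl⟩ := h.exists_w hn
    obtain ⟨D', hd, -, -⟩ := toP3 h
    exact ⟨D', hd⟩
  refine Wins.opp .spoiler (by decide) 0 D ⟨D₀, hD₀⟩ fun D' hD' => ?_
  show Wins 1 1 .builder _ (.builder, 1) D'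
  have he' := einv_draw h.einv hD'
  have hnd := nodup_of_all h.all
  obtain ⟨u, v, huv, hne, hm⟩ := draw_one h.reg hD'
  rcases Pool.Agent.H33.DG.INV.pf_INV _ _ _ _ _ _ hm with ⟨l, m, fl₁, fl₂, hX, -, -⟩ | ⟨u', v', l, m, fl', -, hX, hfl, hΨ⟩ |
    ⟨l, m, fl', hfl, hΨ⟩ | ⟨l, m, hmem⟩
  · exfalso
    apply hne
    rw [h.einv u v huv, h.reg, adj_sing]
    refine ⟨↑[x, y], Multiset.mem_cons_self _ _, Or.inl ?_⟩
    have h1 := len_eq hX
    simp at h1
    have h2 : l = [] := List.eq_nil_of_length_eq_zero (by omega)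
    have h3 : m = [] := List.eq_nil_of_length_eq_zero (by omega)
    subst h2; subst h3
    exact ⟨[], hX⟩
  · obtain ⟨rfl, S', rfl, rfl⟩ := map_sg_cons hfl
    simp only [Multiset.nodup_cons, Multiset.mem_cons, not_or] at hnd
    obtain ⟨⟨hxy, hxw, -⟩, ⟨hyw, -⟩, -⟩ := hnd
    refine wins_bu hG hn (hA n D' he' (Or.inl ?_))
    rcases pair_cons hX with ⟨rfl, rfl⟩ | ⟨rfl, rfl⟩
    · refine ⟨fun i => if i = 0 then y else if i = 1 then u' else v', S', ?_, ?_⟩
      · rw [hΨ]
        congr 2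
        exact coe_rot [u', v', u'] [y]
      · rw [← h.all]
        simp [List.range_succ, ← Multiset.cons_coe, Multiset.cons_swap y u']
    · refine ⟨fun i => if i = 0 then x else if i = 1 then u' else v', S', ?_, ?_⟩
      · rw [hΨ]
        congr 2
        exact coe_rot [u', v', u'] [x]
      · rw [← h.all]
        simp [List.range_succ, ← Multiset.cons_coe]
  · obtain ⟨rfl, S₁, rfl, h2⟩ := map_sg_cons hfl
    obtain ⟨rfl, S₂, rfl, rfl⟩ := map_sg_cons h2.symm
    have hΨ' : D'.regions = {(↑(y :: [x]) : Cycle (Fin n)) ::ₘ (↑(u :: [v]) : Cycle (Fin n)) ::ₘ S₂.map sg} := by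
      rw [hΨ, show (↑[x, y] : Cycle (Fin n)) = ↑[y, x] from coe_rot [x] [y]]
      rfl
    simp only [Multiset.nodup_cons, Multiset.mem_cons, not_or] at hnd
    obtain ⟨⟨hxy, hxu, hxv, -⟩, ⟨hyu, hyv, -⟩, -⟩ := hnd
    have hne' : s(y, u) ∉ D'.edges := by
      rw [he' y u hyu, hΨ', adj_sing]
      rintro ⟨c, hc, hd⟩
      rw [Multiset.mem_cons, Multiset.mem_cons] at hc
      rcases hc with rfl | rfl | hc
      · rcases hd with hd | hd <;> rcases dart_pair hd with ⟨h1, h2⟩ | ⟨h1, h2⟩ <;> simp_all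
      · rcases hd with hd | hd <;> rcases dart_pair hd with ⟨h1, h2⟩ | ⟨h1, h2⟩ <;> simp_all
      · obtain ⟨v, -, rfl⟩ := Multiset.mem_map.1 hc
        rcases hd with hd | hd <;> exact not_dart_sg hd
    have hd := mk_draw hΨ' hyu hne' (RegionMove.join (u := y) (v := u) [x] [v] (S₂.map sg))
    refine Wins.own 0 D' _ hd (wins_sp hG hn (hA n _ (einv_draw he' hd) (Or.inr ?_)))
    refine ⟨fun i => if i = 0 then x else if i = 1 then y else if i = 2 then u else v, S₂, ?_, ?_⟩
    · show ({(↑(joinWalk y [x] u [v]) : Cycle (Fin n)) ::ₘ S₂.map sg} : Multiset (Region (Fin n))) = _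
      congr 2
      exact coe_rot [y, u, v, u, y] [x]
    · rw [← h.all]
      simp [List.range_succ, ← Multiset.cons_coe]
  · exfalso
    obtain ⟨w, -, hw⟩ := Multiset.mem_map.1 hmem
    have := (sg_cons hw).2
    simp at this

end

theorem pf_OPC : T_OPC := by
  intro hG hA n hn t
  unfold BuilderWins
  cases t with
  | builder =>
    show Wins 1 1 .builder _ (.builder, 1) _
    obtain ⟨D, hD⟩ := start_move hn
    obtain ⟨x, y, S, h⟩ := from_start hD (einv_draw start_einv hD)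
    exact Wins.own 0 _ D hD (a2_spoiler hG hA hn h)
  | spoiler =>
    show Wins 1 1 .builder _ (.spoiler, 1) _
    refine Wins.opp .spoiler (by decide) 0 _ (start_move hn) fun D hD => ?_
    obtain ⟨x, y, S, h⟩ := from_start hD (einv_draw start_einv hD)
    exact a2_builder hG hA hn h

end Pool.Agent.H65.DG.OPC
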