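import Pool.Agent.H44.DG.Targets4

/-! SB: cutting the incidence between a region and one of its boundary walks splits the drawing. -/

set_option autoImplicit false

namespace Pool.Agent.H65.DG.SB

open Pool.Agent.H44.DG

variable {V : Type}

/-- constant on the corners of a region -/
def Cst (g : V → Bool) (Φ : Region V) : Prop :=
  ∀ w₁ ∈ Φ, ∀ w₂ ∈ Φ, ∀ x ∈ w₁, ∀ y ∈ w₂, g x = g y

/-- the statement for a multiset of regions -/
def Inv (F : Multiset (Region V)) : Prop :=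
  ∀ (Φ : Region V) (G : Multiset (Region V)) (w : Cycle V) (R : Region V),
    F = Φ ::ₘ G → Φ = w ::ₘ R → ∃ g : V → Bool,
      (∀ Φ' ∈ G, Cst g Φ') ∧ (∀ x ∈ w, g x = true) ∧ (∀ w' ∈ R, ∀ x ∈ w', g x = false)

lemma Cst.or {g g' : V → Bool} {Φ : Region V} (h : Cst g Φ) (h' : Cst g' Φ) :
    Cst (fun x => g x || g' x) Φ := by
  intro w₁ h₁ w₂ h₂ x hx y hy
  simp only
  rw [h w₁ h₁ w₂ h₂ x hx y hy, h' w₁ h₁ w₂ h₂ x hx y hy]

lemma Cst.of_val {g : V → Bool} {Φ : Region V} (b : Bool) (h : ∀ w ∈ Φ, ∀ x ∈ w, g x = b) :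
    Cst g Φ := by
  intro w₁ h₁ w₂ h₂ x hx y hy
  rw [h w₁ h₁ x hx, h w₂ h₂ y hy]

/-- a region whose corners are corners of `Φ` -/
lemma Cst.sub {g : V → Bool} {Φ Φ' : Region V} (h : Cst g Φ)
    (hs : ∀ w ∈ Φ', ∀ x ∈ w, ∃ w' ∈ Φ, x ∈ w') : Cst g Φ' := by
  intro w₁ h₁ w₂ h₂ x hx y hy
  obtain ⟨w₁', h₁', hx'⟩ := hs w₁ h₁ x hx
  obtain ⟨w₂', h₂', hy'⟩ := hs w₂ h₂ y hy
  exact h w₁' h₁' w₂' h₂' x hx' y hy'

/-- several walks on one side -/
lemma Inv.multi {F G : Multiset (Region V)} (hF : Inv F) (A : Region V) :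
    ∀ (B : Region V), F = (A + B) ::ₘ G → ∃ g : V → Bool,
      (∀ Φ' ∈ G, Cst g Φ') ∧ (∀ w ∈ A, ∀ x ∈ w, g x = true) ∧ (∀ w ∈ B, ∀ x ∈ w, g x = false) := by
  induction A using Multiset.induction with
  | empty =>
    intro B _
    exact ⟨fun _ => false, fun Φ' _ => Cst.of_val false (fun _ _ _ _ => rfl), by simp,
      fun _ _ _ _ => rfl⟩
  | cons a A ih =>
    intro B hB
    obtain ⟨g, h1, h2, h3⟩ := ih (a ::ₘ B) (by rw [hB]; congr 1; simp [Multiset.cons_add, Multiset.add_cons])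
    obtain ⟨g', h1', h2', h3'⟩ := hF _ _ a (A + B) hB (by rw [Multiset.cons_add])
    refine ⟨fun x => g x || g' x, fun Φ' h => (h1 Φ' h).or (h1' Φ' h), fun w hw x hx => ?_,
      fun w hw x hx => ?_⟩
    · simp only [Bool.or_eq_true]
      rcases Multiset.mem_cons.1 hw with rfl | hw
      · exact Or.inr (h2' x hx)
      · exact Or.inl (h2 w hw x hx)
    · simp only [Bool.or_eq_false_iff]
      exact ⟨h3 w (Multiset.mem_cons_of_mem hw) x hx, h3' w (Multiset.mem_add.2 (Or.inr hw)) x hx⟩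

lemma join_step {G₀ : Multiset (Region V)} {w₁ w₂ w₁₂ : Cycle V} {R₀ : Region V}
    (hw : ∀ x, x ∈ w₁₂ ↔ x ∈ w₁ ∨ x ∈ w₂)
    (hF : Inv ((w₁ ::ₘ w₂ ::ₘ R₀) ::ₘ G₀)) : Inv ((w₁₂ ::ₘ R₀) ::ₘ G₀) := by
  intro Φ G w R hΦ hR
  rcases Multiset.cons_eq_cons.1 hΦ with ⟨h1, h2⟩ | ⟨-, cs, h2, h3⟩
  · subst h1; subst h2
    rcases Multiset.cons_eq_cons.1 hR with ⟨h3, h4⟩ | ⟨-, cs, h3, h4⟩
    · subst h3; subst h4
      obtain ⟨g, a1, a2, a3⟩ := hF _ _ w₁ (w₂ ::ₘ R₀) rfl rfl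
      obtain ⟨g', b1, b2, b3⟩ := hF _ _ w₂ (w₁ ::ₘ R₀) rfl (Multiset.cons_swap _ _ _)
      refine ⟨fun x => g x || g' x, fun Φ' h => (a1 Φ' h).or (b1 Φ' h), fun x hx => ?_,
        fun w' hw' x hx => ?_⟩
      · simp only [Bool.or_eq_true]
        rcases (hw x).1 hx with h | h
        · exact Or.inl (a2 x h)
        · exact Or.inr (b2 x h)
      · simp only [Bool.or_eq_false_iff]
        exact ⟨a3 w' (Multiset.mem_cons_of_mem hw') x hx, b3 w' (Multiset.mem_cons_of_mem hw') x hx⟩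
    · subst h3; subst h4
      obtain ⟨g, a1, a2, a3⟩ := hF _ _ w (w₁ ::ₘ w₂ ::ₘ cs) rfl (by
        rw [Multiset.cons_swap w w₁, Multiset.cons_swap w w₂])
      refine ⟨g, a1, a2, fun w' hw' x hx => ?_⟩
      rcases Multiset.mem_cons.1 hw' with rfl | hw'
      · rcases (hw x).1 hx with h | h
        · exact a3 w₁ (by simp) x h
        · exact a3 w₂ (by simp) x h
      · exact a3 w' (by simp [hw']) x hx
  · subst h2; subst h3
    obtain ⟨g, a1, a2, a3⟩ := hF Φ ((w₁ ::ₘ w₂ ::ₘ R₀) ::ₘ cs) w R (Multiset.cons_swap _ _ _) hR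
    refine ⟨g, fun Φ' hΦ' => ?_, a2, a3⟩
    rcases Multiset.mem_cons.1 hΦ' with rfl | hΦ'
    · refine (a1 _ (Multiset.mem_cons_self _ _)).sub fun w' hw' x hx => ?_
      rcases Multiset.mem_cons.1 hw' with rfl | hw'
      · rcases (hw x).1 hx with h | h
        · exact ⟨w₁, by simp, h⟩
        · exact ⟨w₂, by simp, h⟩
      · exact ⟨w', by simp [hw'], hx⟩
    · exact a1 Φ' (Multiset.mem_cons_of_mem hΦ')

/-- the new region `w₁ ::ₘ R₁` after a split -/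
lemma split_aux {G₀ : Multiset (Region V)} {w₀ w₁ w₂ : Cycle V} {R₁ R₂ : Region V}
    (hw₁ : ∀ x ∈ w₁, x ∈ w₀) (hw₂ : ∀ x ∈ w₂, x ∈ w₀) (hF : Inv ((w₀ ::ₘ (R₁ + R₂)) ::ₘ G₀))
    {w : Cycle V} {R : Region V} (hR : w₁ ::ₘ R₁ = w ::ₘ R) : ∃ g : V → Bool,
      (∀ Φ' ∈ (w₂ ::ₘ R₂) ::ₘ G₀, Cst g Φ') ∧ (∀ x ∈ w, g x = true) ∧
        (∀ w' ∈ R, ∀ x ∈ w', g x = false) := by
  rcases Multiset.cons_eq_cons.1 hR with ⟨h3, h4⟩ | ⟨-, cs, h3, h4⟩
  · subst h3; subst h4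
    obtain ⟨g, a1, a2, a3⟩ := hF.multi (w₀ ::ₘ R₂) R₁ (by
      rw [Multiset.cons_add, add_comm R₂ R₁])
    refine ⟨g, fun Φ' hΦ' => ?_, fun x hx => a2 w₀ (by simp) x (hw₁ x hx), a3⟩
    rcases Multiset.mem_cons.1 hΦ' with rfl | hΦ'
    · refine Cst.of_val true fun w' hw' x hx => ?_
      rcases Multiset.mem_cons.1 hw' with rfl | hw'
      · exact a2 w₀ (by simp) x (hw₂ x hx)
      · exact a2 w' (by simp [hw']) x hx
    · exact a1 Φ' hΦ'
  · subst h3; subst h4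
    obtain ⟨g, a1, a2, a3⟩ := hF _ _ w (w₀ ::ₘ (cs + R₂)) rfl (by
      rw [Multiset.cons_add, Multiset.cons_swap])
    refine ⟨g, fun Φ' hΦ' => ?_, a2, fun w' hw' x hx => ?_⟩
    · rcases Multiset.mem_cons.1 hΦ' with rfl | hΦ'
      · refine Cst.of_val false fun w' hw' x hx => ?_
        rcases Multiset.mem_cons.1 hw' with rfl | hw'
        · exact a3 w₀ (by simp) x (hw₂ x hx)
        · exact a3 w' (by simp [hw']) x hx
      · exact a1 Φ' hΦ'
    · rcases Multiset.mem_cons.1 hw' with rfl | hw'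
      · exact a3 w₀ (by simp) x (hw₁ x hx)
      · exact a3 w' (by simp [hw']) x hx

lemma split_step {G₀ : Multiset (Region V)} {w₀ w₁ w₂ : Cycle V} {R₁ R₂ : Region V}
    (hw₁ : ∀ x ∈ w₁, x ∈ w₀) (hw₂ : ∀ x ∈ w₂, x ∈ w₀) (hF : Inv ((w₀ ::ₘ (R₁ + R₂)) ::ₘ G₀)) :
    Inv ((w₁ ::ₘ R₁) ::ₘ (w₂ ::ₘ R₂) ::ₘ G₀) := by
  intro Φ G w R hΦ hR
  rcases Multiset.cons_eq_cons.1 hΦ with ⟨h1, h2⟩ | ⟨-, cs, h2, h3⟩
  · subst h2
    rw [← h1] at hR
    exact split_aux hw₁ hw₂ hF hR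
  · subst h3
    rcases Multiset.cons_eq_cons.1 h2 with ⟨h4, h5⟩ | ⟨-, ds, h5, h6⟩
    · subst h5
      rw [← h4] at hR
      exact split_aux hw₂ hw₁ (by rw [add_comm]; exact hF) hR
    · subst h5; subst h6
      obtain ⟨g, a1, a2, a3⟩ := hF Φ ((w₀ ::ₘ (R₁ + R₂)) ::ₘ ds) w R (Multiset.cons_swap _ _ _) hR
      have h0 := a1 _ (Multiset.mem_cons_self _ _)
      refine ⟨g, fun Φ' hΦ' => ?_, a2, a3⟩
      rcases Multiset.mem_cons.1 hΦ' with rfl | hΦ'
      · refine h0.sub fun w' hw' x hx => ?_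
        rcases Multiset.mem_cons.1 hw' with rfl | hw'
        · exact ⟨w₀, by simp, hw₁ x hx⟩
        · exact ⟨w', by simp [hw'], hx⟩
      · rcases Multiset.mem_cons.1 hΦ' with rfl | hΦ'
        · refine h0.sub fun w' hw' x hx => ?_
          rcases Multiset.mem_cons.1 hw' with rfl | hw'
          · exact ⟨w₀, by simp, hw₂ x hx⟩
          · exact ⟨w', by simp [hw'], hx⟩
        · exact a1 Φ' (Multiset.mem_cons_of_mem hΦ')

lemma draw_step {D D' : Drawing V} (h : Draw D D') (hF : Inv D.regions) : Inv D'.regions := by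
  obtain ⟨u, v, -, -, -, Φ, Ψ, F, hD, hD', hm⟩ := h
  rw [hD] at hF
  rw [hD']
  cases hm with
  | join l m R =>
    rw [Multiset.singleton_add]
    refine join_step (fun x => ?_) hF
    rw [Cycle.mem_coe_iff, Cycle.mem_coe_iff, Cycle.mem_coe_iff]
    exact joinWalk_mem
  | split l m R₁ R₂ =>
    rw [Multiset.insert_eq_cons, Multiset.cons_add, Multiset.singleton_add]
    refine split_step (fun x hx => ?_) (fun x hx => ?_) hF
    · rw [Cycle.mem_coe_iff] at hx ⊢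
      simp only [List.mem_cons, List.mem_append, List.not_mem_nil, or_false] at hx ⊢
      tauto
    · rw [Cycle.mem_coe_iff] at hx ⊢
      simp only [List.mem_cons, List.mem_append, List.not_mem_nil, or_false] at hx ⊢
      tauto

lemma start_inv (n : ℕ) : Inv (start n).regions := by
  intro Φ G w R hΦ hR
  have h0 : (start n).regions = ((Finset.univ : Finset (Fin n)).val.map
    fun v => (↑[v] : Cycle (Fin n))) ::ₘ 0 := rfl
  rw [h0] at hΦ
  rcases Multiset.cons_eq_cons.1 hΦ with ⟨h1, h2⟩ | ⟨-, cs, h2, -⟩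
  · subst h2
    rw [← h1] at hR
    obtain ⟨a, ha, h3, h4⟩ := (Multiset.map_eq_cons _ _ _ _).2 hR
    refine ⟨fun x => decide (x = a), by simp, fun x hx => ?_, fun w' hw' x hx => ?_⟩
    · rw [← h3, Cycle.mem_coe_iff, List.mem_singleton] at hx
      exact decide_eq_true hx
    · rw [← h4] at hw'
      obtain ⟨b, hb, rfl⟩ := Multiset.mem_map.1 hw'
      rw [Cycle.mem_coe_iff, List.mem_singleton] at hx
      subst hx
      have := (Multiset.Nodup.mem_erase_iff (Finset.univ : Finset (Fin n)).nodup).1 hb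
      exact decide_eq_false this.1
  · exact absurd h2.symm (Multiset.cons_ne_zero)

theorem pf_SB : T_SB := by
  intro n D hD
  have h : Inv D.regions := by
    unfold Reach at hD
    induction hD with
    | refl => exact start_inv n
    | tail _ hd ih => exact draw_step hd ih
  intro Φ G w R hΦ hR
  exact h Φ G w R hΦ hR

end Pool.Agent.H65.DG.SB
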